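import Pool.Agent.Helper51.BB.Par

/-!
# Project LT, module HALF (from the mean square bound)
-/

set_option autoImplicit false

namespace Pool.Agent.Helper51.BB

open Complex MeasureTheory Set Metric Filter Topology
open scoped Real ENNReal
open Pool.Agent.Helper60.Rel (LH tc Admissible ClassS LogData om th)
open Pool.Agent.Helper51.LT

theorem cont_circ {F : ℂ → ℂ} (hF : DifferentiableOn ℂ F (ball 0 1)) {r : ℝ} (h0 : 0 ≤ r)
    (h1 : r < 1) : Continuous fun t : ℝ => ‖F (circleMap 0 r t)‖ := by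
  have hc : ContinuousOn F (ball 0 1) := hF.continuousOn
  have : Continuous fun t : ℝ => F (circleMap 0 r t) := by
    apply hc.comp_continuous (continuous_circleMap 0 r)
    intro t
    rw [mem_ball_zero_iff, Pool.Agent.Helper64.C3.ub_norm_circleMap r t h0]
    exact h1
  exact this.norm

theorem A_eq (F : ℂ → ℂ) (r : ℝ) :
    A F r = (2 * π)⁻¹ * ∫ t in (0 : ℝ)..(2 * π), ‖F (circleMap 0 r t)‖ ^ 2 := by
  unfold A
  rw [Real.circleAverage_def, smul_eq_mul]

theorem hHalf : StHalf := by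
  refine ⟨2 * π, fun g hg r h0 h1 => ?_⟩
  have hr : 0 < 1 - r := by linarith
  have hL2 := L2 hg h0.le h1
  rw [A_eq] at hL2
  have hpi := Real.pi_pos
  have hd' : DifferentiableOn ℂ (deriv g) (ball 0 1) := hg.1.1.deriv isOpen_ball
  have hc := cont_circ hd' h0.le h1
  obtain ⟨l, hl⟩ : ∃ l : ℝ, l = (1 - r) ^ (-(1 / 2 : ℝ)) := ⟨_, rfl⟩
  have hl0 : 0 < l := hl ▸ Real.rpow_pos_of_pos hr _
  have hl2 : l ^ 2 = 1 / (1 - r) := by
    rw [hl, ← Real.rpow_natCast, ← Real.rpow_mul hr.le]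
    norm_num
    rw [Real.rpow_neg_one]
  rw [← hl]
  unfold IM
  have h2 : (∫ t in (0 : ℝ)..(2 * π), ‖deriv g (circleMap 0 r t)‖ ^ 2) ≤ 2 * π * l ^ 2 := by
    rw [inv_mul_le_iff₀ (by positivity)] at hL2
    rw [hl2]; exact hL2
  have hpt : ∀ t : ℝ, ‖deriv g (circleMap 0 r t)‖
      ≤ (l + ‖deriv g (circleMap 0 r t)‖ ^ 2 / l) / 2 := by
    intro t
    obtain ⟨x, hx⟩ : ∃ x : ℝ, x = ‖deriv g (circleMap 0 r t)‖ := ⟨_, rfl⟩
    rw [← hx]
    have : (l + x ^ 2 / l) / 2 - x = (l - x) ^ 2 / (2 * l) := by field_simp; ring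
    have h3 : 0 ≤ (l - x) ^ 2 / (2 * l) := by positivity
    linarith
  calc ∫ t in (0 : ℝ)..(2 * π), ‖deriv g (circleMap 0 r t)‖
      ≤ ∫ t in (0 : ℝ)..(2 * π), (l + ‖deriv g (circleMap 0 r t)‖ ^ 2 / l) / 2 := by
        apply intervalIntegral.integral_mono_on (by positivity) (hc.intervalIntegrable _ _)
          ((by fun_prop : Continuous fun t : ℝ =>
            (l + ‖deriv g (circleMap 0 r t)‖ ^ 2 / l) / 2).intervalIntegrable _ _)
        intro t _
        exact hpt t
    _ = (2 * π * l + (∫ t in (0 : ℝ)..(2 * π), ‖deriv g (circleMap 0 r t)‖ ^ 2) / l) / 2 := by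
        rw [intervalIntegral.integral_div, intervalIntegral.integral_add
          (intervalIntegrable_const) ((by fun_prop : Continuous fun t : ℝ =>
            ‖deriv g (circleMap 0 r t)‖ ^ 2 / l).intervalIntegrable _ _),
          intervalIntegral.integral_div, intervalIntegral.integral_const]
        simp
    _ ≤ (2 * π * l + (2 * π * l ^ 2) / l) / 2 := by gcongr
    _ = 2 * π * l := by field_simp; ring

end Pool.Agent.Helper51.BB
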