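import Pool.Agent.Helper51.BB.Ode
import Pool.Agent.Helper51.LT.M_FIN

/-!
# `B_b(1) ≤ 0.4906`: conclusion
-/

set_option autoImplicit false

namespace Pool.Agent.Helper51.BB

open Complex MeasureTheory Set Metric Filter Topology
open scoped Real ENNReal ComplexConjugate
open Pool.Agent.Helper60.Rel (LH tc Admissible ClassS LogData om th)
open Pool.Agent.Helper51.LT

/-- derivative of a power series with nonnegative coefficients -/
theorem series_deriv {b : ℕ → ℝ} (hb : ∀ n, 0 ≤ b n)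
    (h1 : ∀ x : ℝ, 0 ≤ x → x < 1 → Summable fun n : ℕ => b n * x ^ n)
    (h2 : ∀ x : ℝ, 0 ≤ x → x < 1 → Summable fun n : ℕ => (n : ℝ) * b n * x ^ n)
    {x : ℝ} (h0 : 0 < x) (hx1 : x < 1) :
    HasDerivAt (fun x : ℝ => ∑' n : ℕ, b n * x ^ n) ((∑' n : ℕ, (n : ℝ) * b n * x ^ n) / x) x := by
  obtain ⟨ρ, hρ1, hρ2⟩ := exists_between hx1
  have hρ0 : 0 < ρ := h0.trans hρ1
  have key := hasDerivAt_tsum_of_isPreconnected (𝕜 := ℝ)
    (u := fun n : ℕ => (n : ℝ) * b n * ρ ^ (n - 1))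
    (t := Ioo 0 ρ) (g := fun (n : ℕ) (x : ℝ) => b n * x ^ n)
    (g' := fun (n : ℕ) (x : ℝ) => b n * ((n : ℝ) * x ^ (n - 1))) (y₀ := x) (y := x) ?_ isOpen_Ioo
    isPreconnected_Ioo ?_ ?_ ⟨h0, hρ1⟩ (h1 x h0.le hx1) ⟨h0, hρ1⟩
  · have e : (∑' n : ℕ, b n * ((n : ℝ) * x ^ (n - 1))) = (∑' n : ℕ, (n : ℝ) * b n * x ^ n) / x := by
      rw [← tsum_div_const]
      apply tsum_congr
      intro n
      rcases n with _ | n
      · simp
      · simp only [Nat.add_sub_cancel]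
        field_simp
        ring
    rw [← e]
    exact key
  · have := (h2 ρ hρ0.le hρ2).div_const ρ
    refine this.congr fun n => ?_
    rcases n with _ | n
    · simp
    · simp only [Nat.add_sub_cancel]
      field_simp
      ring
  · intro n y _
    exact (hasDerivAt_pow n y).const_mul (b n)
  · intro n y hy
    have h3 := hb n
    have h4 := hy.1.le
    rw [Real.norm_of_nonneg (by positivity)]
    calc b n * ((n : ℝ) * y ^ (n - 1)) ≤ b n * ((n : ℝ) * ρ ^ (n - 1)) := by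
          gcongr
          exact hy.2.le
      _ = _ := by ring

/-- monotone quantity -/
theorem ode {u v w : ℝ → ℝ} {p β x₀ : ℝ} (hβ : 0 < β) (hx0 : 0 < x₀) (hx1 : x₀ < 1) (hp : 0 < p)
    (hu : ∀ x ∈ Ioo (0 : ℝ) 1, HasDerivAt u (v x / x) x)
    (hv : ∀ x ∈ Ioo (0 : ℝ) 1, HasDerivAt v (w x / x) x)
    (hu0 : ∀ x ∈ Ioo (0 : ℝ) 1, 0 ≤ u x) (hv0 : ∀ x ∈ Ioo (0 : ℝ) 1, 0 ≤ v x)
    (hw : ∀ x ∈ Ioo (0 : ℝ) 1, (1 - x) ^ 2 * w x ≤ p ^ 2 * (4 * x - x ^ 2) * u x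
      + 2 * p * x * (1 - x) * v x)
    (hc : p ^ 2 * (4 - x₀) ≤ β * x₀ * (β + 1 - 2 * p)) :
    ∃ K : ℝ, ∀ x, x₀ ≤ x → x < 1 → u x ≤ K * (1 - x) ^ (-β) := by
  obtain ⟨l, hl⟩ : ∃ l : ℝ, l = p ^ 2 * (4 - x₀) / β := ⟨_, rfl⟩
  have hl0 : 0 < l := by
    rw [hl]
    have : 0 < 4 - x₀ := by linarith
    positivity
  have hlβ : l * β = p ^ 2 * (4 - x₀) := by rw [hl]; field_simp
  have hl2 : l ≤ x₀ * (β + 1 - 2 * p) := by
    rw [hl, div_le_iff₀ hβ]; linarith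
  obtain ⟨χ, hχ⟩ : ∃ χ : ℝ → ℝ, χ = fun x => l * ((1 - x) ^ β * u x) + (1 - x) ^ (β + 1) * v x :=
    ⟨_, rfl⟩
  have hsub : Ico x₀ 1 ⊆ Ioo (0 : ℝ) 1 := fun x hx => ⟨by linarith [hx.1], hx.2⟩
  have hder : ∀ x ∈ Ioo (0 : ℝ) 1, HasDerivAt χ
      (l * ((-(β * (1 - x) ^ (β - 1))) * u x + (1 - x) ^ β * (v x / x)) +
        ((-((β + 1) * (1 - x) ^ (β + 1 - 1))) * v x + (1 - x) ^ (β + 1) * (w x / x))) x := by
    intro x hx
    have h1x : 0 < 1 - x := by linarith [hx.2]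
    have e0 : HasDerivAt (fun x : ℝ => 1 - x) (-1) x := by
      simpa using (hasDerivAt_id x).const_sub 1
    have e1 : ∀ γ : ℝ, HasDerivAt (fun x : ℝ => (1 - x) ^ γ) (-(γ * (1 - x) ^ (γ - 1))) x := by
      intro γ
      have := e0.rpow_const (p := γ) (Or.inl h1x.ne')
      convert this using 1
      ring
    rw [hχ]
    exact (((e1 β).mul (hu x hx)).const_mul l).add ((e1 (β + 1)).mul (hv x hx))
  have hanti : AntitoneOn χ (Ico x₀ 1) := by
    apply antitoneOn_of_deriv_nonpos (convex_Ico _ _)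
    · intro x hx
      exact (hder x (hsub hx)).continuousAt.continuousWithinAt
    · intro x hx
      rw [interior_Ico] at hx
      exact (hder x (hsub ⟨hx.1.le, hx.2⟩)).differentiableAt.differentiableWithinAt
    · intro x hx
      rw [interior_Ico] at hx
      have hx' := hsub ⟨hx.1.le, hx.2⟩
      rw [(hder x hx').deriv]
      have h1x : 0 < 1 - x := by linarith [hx.2]
      have hxx : 0 < x := hx'.1
      have hP : 0 < (1 - x) ^ (β - 1) := Real.rpow_pos_of_pos h1x _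
      have e1 : (1 - x) ^ β = (1 - x) ^ (β - 1) * (1 - x) := by
        rw [← Real.rpow_add_one h1x.ne']; ring_nf
      have e2 : (1 - x) ^ (β + 1 - 1) = (1 - x) ^ (β - 1) * (1 - x) := by
        rw [← e1]; ring_nf
      have e3 : (1 - x) ^ (β + 1) = (1 - x) ^ (β - 1) * (1 - x) ^ 2 := by
        rw [Real.rpow_add_one h1x.ne', e1]; ring
      rw [e1, e2, e3]
      have hu' := hu0 x hx'
      have hv' := hv0 x hx'
      have hw' := hw x hx'
      have hkey : (-(l * β) * u x + l * (1 - x) * (v x / x)) + (-(β + 1) * (1 - x) * v x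
          + (1 - x) ^ 2 * w x / x) ≤ 0 := by
        have h2 : (1 - x) ^ 2 * w x / x ≤ p ^ 2 * (4 - x) * u x + 2 * p * (1 - x) * v x := by
          rw [div_le_iff₀ hxx]
          calc _ ≤ _ := hw'
            _ = _ := by ring
        have h3 : l * (1 - x) * (v x / x) ≤ (β + 1 - 2 * p) * (1 - x) * v x := by
          have h4 : l * (v x / x) ≤ (β + 1 - 2 * p) * v x := by
            rw [mul_div_assoc', div_le_iff₀ hxx]
            have h5 : l ≤ x * (β + 1 - 2 * p) := by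
              refine hl2.trans ?_
              have : 0 ≤ β + 1 - 2 * p := by
                by_contra hneg
                push Not at hneg
                have : x₀ * (β + 1 - 2 * p) < 0 := mul_neg_of_pos_of_neg hx0 hneg
                linarith
              gcongr
              exact hx.1.le
            calc l * v x ≤ (x * (β + 1 - 2 * p)) * v x := by gcongr
              _ = _ := by ring
          calc l * (1 - x) * (v x / x) = (1 - x) * (l * (v x / x)) := by ring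
            _ ≤ (1 - x) * ((β + 1 - 2 * p) * v x) := by gcongr
            _ = _ := by ring
        have h6 : p ^ 2 * (4 - x) * u x ≤ l * β * u x := by
          rw [hlβ]
          gcongr
          exact hx.1.le
        nlinarith
      calc _ = (1 - x) ^ (β - 1) * ((-(l * β) * u x + l * (1 - x) * (v x / x)) +
            (-(β + 1) * (1 - x) * v x + (1 - x) ^ 2 * w x / x)) := by ring
        _ ≤ 0 := mul_nonpos_of_nonneg_of_nonpos hP.le hkey
  refine ⟨χ x₀ / l, fun x hx hx2 => ?_⟩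
  have h1x : 0 < 1 - x := by linarith
  have h1 := hanti ⟨le_rfl, hx1⟩ ⟨hx, hx2⟩ hx
  have h2 : l * ((1 - x) ^ β * u x) ≤ χ x := by
    rw [hχ]
    simp only
    have h3 : 0 ≤ (1 - x) ^ (β + 1) * v x :=
      mul_nonneg (Real.rpow_nonneg h1x.le _) (hv0 x (hsub ⟨hx, hx2⟩))
    linarith
  have h3 : 0 < (1 - x) ^ β := Real.rpow_pos_of_pos h1x _
  rw [Real.rpow_neg h1x.le, div_mul_eq_mul_div, le_div_iff₀ hl0, ← div_eq_mul_inv,
    le_div_iff₀ h3]
  linarith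

/-- the mean of `|g'|^p` -/
theorem mean_p {g : ℂ → ℂ} (hg : Un g (ball 0 1)) {p β x₀ : ℝ} (hp : 0 < p) (hβ : 0 < β)
    (hx0 : 0 < x₀) (hx1 : x₀ < 1) (hc : p ^ 2 * (4 - x₀) ≤ β * x₀ * (β + 1 - 2 * p)) :
    ∃ K : ℝ, 0 ≤ K ∧ ∀ r : ℝ, 0 ≤ r → r < 1 →
      (∫ t in (0 : ℝ)..(2 * π), ‖deriv g (circleMap 0 r t)‖ ^ p) ≤ K * (1 - r) ^ (-β) := by
  obtain ⟨F, hFd, hF1, hF2⟩ := exists_F hg p
  have hpi := Real.pi_pos
  have h0m : (0 : ℂ) ∈ ball (0 : ℂ) 1 := mem_ball_self one_pos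
  have hn0 : deriv g 0 ≠ 0 := Pool.TU.X5.deriv_ne_zero_of_injOn isOpen_ball hg.1 hg.2 h0m
  have hn0' : 0 < ‖deriv g 0‖ := norm_pos_iff.2 hn0
  obtain ⟨b, hb⟩ : ∃ b : ℕ → ℝ, b = fun n => ‖tc F n‖ ^ 2 := ⟨_, rfl⟩
  have hb0 : ∀ n, 0 ≤ b n := by intro n; rw [hb]; positivity
  have hsq : ∀ x : ℝ, 0 ≤ x → x < 1 → Real.sqrt x ^ 2 = x ∧ 0 ≤ Real.sqrt x ∧ Real.sqrt x < 1 := by
    intro x h0 h1
    refine ⟨Real.sq_sqrt h0, Real.sqrt_nonneg _, ?_⟩
    rw [Real.sqrt_lt' one_pos]; simpa using h1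
  have hU : ∀ x : ℝ, 0 ≤ x → x < 1 → HasSum (fun n : ℕ => b n * x ^ n) (A F (Real.sqrt x)) := by
    intro x h0 h1
    obtain ⟨e1, e2, e3⟩ := hsq x h0 h1
    have := parseval hFd e2 e3
    simp only [pow_mul, e1] at this
    rw [hb]; exact this
  have hWs : ∀ x : ℝ, 0 ≤ x → x < 1 → HasSum (fun n : ℕ => (n : ℝ) ^ 2 * b n * x ^ n)
      (A (fun z => z * deriv F z) (Real.sqrt x)) := by
    intro x h0 h1
    obtain ⟨e1, e2, e3⟩ := hsq x h0 h1
    have := par_w hFd e2 e3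
    simp only [pow_mul, e1] at this
    rw [hb]; exact this
  have hSs : ∀ x : ℝ, 0 ≤ x → x < 1 → HasSum (fun n : ℕ => (1 + n : ℝ) ^ 2 * b n * x ^ n)
      (A (fun z => F z + z * deriv F z) (Real.sqrt x)) := by
    intro x h0 h1
    obtain ⟨e1, e2, e3⟩ := hsq x h0 h1
    have := par_s hFd e2 e3
    simp only [pow_mul, e1] at this
    rw [hb]; exact this
  have hV : ∀ x : ℝ, 0 ≤ x → x < 1 → HasSum (fun n : ℕ => (n : ℝ) * b n * x ^ n)
      ((A (fun z => F z + z * deriv F z) (Real.sqrt x) - A F (Real.sqrt x) -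
        A (fun z => z * deriv F z) (Real.sqrt x)) / 2) := by
    intro x h0 h1
    have := (((hSs x h0 h1).sub (hU x h0 h1)).sub (hWs x h0 h1)).div_const 2
    refine this.congr_fun ?_ |> fun h => h
    intro n
    ring
  obtain ⟨u, hu⟩ : ∃ u : ℝ → ℝ, u = fun x => ∑' n : ℕ, b n * x ^ n := ⟨_, rfl⟩
  obtain ⟨v, hv⟩ : ∃ v : ℝ → ℝ, v = fun x => ∑' n : ℕ, (n : ℝ) * b n * x ^ n := ⟨_, rfl⟩
  obtain ⟨w, hw⟩ : ∃ w : ℝ → ℝ, w = fun x => ∑' n : ℕ, (n : ℝ) ^ 2 * b n * x ^ n := ⟨_, rfl⟩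
  have hux : ∀ x : ℝ, 0 ≤ x → x < 1 → u x = A F (Real.sqrt x) := by
    intro x h0 h1; rw [hu]; exact (hU x h0 h1).tsum_eq
  have hvx : ∀ x : ℝ, 0 ≤ x → x < 1 → v x = (A (fun z => F z + z * deriv F z) (Real.sqrt x)
      - A F (Real.sqrt x) - A (fun z => z * deriv F z) (Real.sqrt x)) / 2 := by
    intro x h0 h1; rw [hv]; exact (hV x h0 h1).tsum_eq
  have hwx : ∀ x : ℝ, 0 ≤ x → x < 1 → w x = A (fun z => z * deriv F z) (Real.sqrt x) := by
    intro x h0 h1; rw [hw]; exact (hWs x h0 h1).tsum_eq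
  obtain ⟨K, hK⟩ := ode (u := u) (v := v) (w := w) (p := p) (β := β) (x₀ := x₀) hβ hx0 hx1 hp
    (by
      intro x hx
      rw [hu, hv]
      exact series_deriv hb0 (fun x h0 h1 => (hU x h0 h1).summable)
        (fun x h0 h1 => (hV x h0 h1).summable) hx.1 hx.2)
    (by
      intro x hx
      rw [hv, hw]
      have := series_deriv (b := fun n => (n : ℝ) * b n) (fun n => mul_nonneg (by positivity) (hb0 n))
        (fun x h0 h1 => (hV x h0 h1).summable)
        (fun x h0 h1 => by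
          refine (hWs x h0 h1).summable.congr fun n => ?_
          ring) hx.1 hx.2
      have e : (∑' n : ℕ, (n : ℝ) ^ 2 * b n * x ^ n) = ∑' n : ℕ, (n : ℝ) * ((n : ℝ) * b n) * x ^ n := by
        apply tsum_congr
        intro n
        ring
      simp only [e]
      exact this)
    (by
      intro x hx
      rw [hu]
      exact tsum_nonneg fun n => mul_nonneg (hb0 n) (pow_nonneg hx.1.le _))
    (by
      intro x hx
      rw [hv]
      exact tsum_nonneg fun n => mul_nonneg (mul_nonneg (by positivity) (hb0 n))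
        (pow_nonneg hx.1.le _))
    (by
      intro x hx
      rw [hux x hx.1.le hx.2, hvx x hx.1.le hx.2, hwx x hx.1.le hx.2]
      obtain ⟨e1, e2, e3⟩ := hsq x hx.1.le hx.2
      have := integrated hg hp.le hFd hF2 e2 e3
      rw [e1] at this
      linarith)
    hc
  -- bound for all x
  have humono : ∀ x y : ℝ, 0 ≤ x → x ≤ y → y < 1 → u x ≤ u y := by
    intro x y h0 hxy h1
    rw [hu]
    refine (hU x h0 (hxy.trans_lt h1)).summable.tsum_le_tsum (fun n => ?_)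
      (hU y (h0.trans hxy) h1).summable
    have := hb0 n
    gcongr
  have hu00 : ∀ x : ℝ, 0 ≤ x → 0 ≤ u x := by
    intro x hx
    rw [hu]
    exact tsum_nonneg fun n => mul_nonneg (hb0 n) (pow_nonneg hx _)
  have hK0 : 0 ≤ K := by
    have h1 := hK x₀ le_rfl hx1
    have h2 := hu00 x₀ hx0.le
    have h3 : 0 < (1 - x₀) ^ (-β) := Real.rpow_pos_of_pos (by linarith) _
    by_contra hneg
    push Not at hneg
    have : K * (1 - x₀) ^ (-β) < 0 := mul_neg_of_neg_of_pos hneg h3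
    linarith
  have hx₀p : 1 ≤ (1 - x₀) ^ (-β) :=
    Real.one_le_rpow_of_pos_of_le_one_of_nonpos (by linarith) (by linarith) (by linarith)
  have hall : ∀ x : ℝ, 0 ≤ x → x < 1 → u x ≤ K * (1 - x₀) ^ (-β) * (1 - x) ^ (-β) := by
    intro x h0 h1
    have h1x : 1 ≤ (1 - x) ^ (-β) :=
      Real.one_le_rpow_of_pos_of_le_one_of_nonpos (by linarith) (by linarith) (by linarith)
    rcases le_total x₀ x with h | h
    · calc u x ≤ K * (1 - x) ^ (-β) := hK x h h1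
        _ = K * 1 * (1 - x) ^ (-β) := by ring
        _ ≤ _ := by gcongr
    · calc u x ≤ u x₀ := humono x x₀ h0 h hx1
        _ ≤ K * (1 - x₀) ^ (-β) := hK x₀ le_rfl hx1
        _ = K * (1 - x₀) ^ (-β) * 1 := by ring
        _ ≤ _ := by gcongr
  refine ⟨2 * π * ‖deriv g 0‖ ^ p * (K * (1 - x₀) ^ (-β)), by positivity, fun r h0 h1 => ?_⟩
  have hr2 : r ^ 2 < 1 := by nlinarith
  have h3 := hall (r ^ 2) (by positivity) hr2
  rw [hux _ (by positivity) hr2, Real.sqrt_sq h0, A_eq] at h3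
  have h4 : (∫ t in (0 : ℝ)..(2 * π), ‖deriv g (circleMap 0 r t)‖ ^ p)
      = ‖deriv g 0‖ ^ p * ∫ t in (0 : ℝ)..(2 * π), ‖F (circleMap 0 r t)‖ ^ 2 := by
    rw [← intervalIntegral.integral_const_mul]
    apply intervalIntegral.integral_congr
    intro t _
    simp only
    have hn : ‖circleMap 0 r t‖ = r := Pool.Agent.Helper64.C3.ub_norm_circleMap r t h0
    rw [hF1 _ (by rw [mem_ball_zero_iff, hn]; exact h1),
      Real.div_rpow (norm_nonneg _) (norm_nonneg _)]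
    have : 0 < ‖deriv g 0‖ ^ p := Real.rpow_pos_of_pos hn0' _
    field_simp
  rw [h4]
  have h5 : (1 - r ^ 2) ^ (-β) ≤ (1 - r) ^ (-β) := by
    apply Real.rpow_le_rpow_of_nonpos (by linarith) _ (by linarith)
    nlinarith
  rw [inv_mul_le_iff₀ (by positivity)] at h3
  have hK1 : 0 ≤ K * (1 - x₀) ^ (-β) := by positivity
  calc ‖deriv g 0‖ ^ p * ∫ t in (0 : ℝ)..(2 * π), ‖F (circleMap 0 r t)‖ ^ 2
      ≤ ‖deriv g 0‖ ^ p * (2 * π * (K * (1 - x₀) ^ (-β) * (1 - r ^ 2) ^ (-β))) := by gcongr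
    _ ≤ ‖deriv g 0‖ ^ p * (2 * π * (K * (1 - x₀) ^ (-β) * (1 - r) ^ (-β))) := by gcongr
    _ = _ := by ring

theorem Bd_of {p β x₀ : ℝ} (hp : 0 < p) (hp1 : p < 1) (hβ : 0 < β) (hx0 : 0 < x₀) (hx1 : x₀ < 1)
    (hc : p ^ 2 * (4 - x₀) ≤ β * x₀ * (β + 1 - 2 * p)) (hβ1 : β ≤ 1) :
    Bd ((1 - p + β) / (2 - p)) := by
  intro g hg
  have hpi := Real.pi_pos
  obtain ⟨K, hK0, hK⟩ := mean_p hg.1 hp hβ hx0 hx1 hc
  refine ⟨K + 2 * π, fun r h0 h1 => ?_⟩
  have hr : 0 < 1 - r := by linarith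
  have hd' : DifferentiableOn ℂ (deriv g) (ball 0 1) := hg.1.1.deriv isOpen_ball
  have hc1 := cont_circ hd' h0.le h1
  have hL2 := L2 hg h0.le h1
  rw [A_eq, inv_mul_le_iff₀ (by positivity)] at hL2
  obtain ⟨σ, hσ⟩ : ∃ σ : ℝ, σ = (1 - β) / (2 - p) := ⟨_, rfl⟩
  have h2p : 0 < 2 - p := by linarith
  obtain ⟨s, hs⟩ : ∃ s : ℝ, s = (1 - r) ^ (-σ) := ⟨_, rfl⟩
  have hs0 : 0 < s := hs ▸ Real.rpow_pos_of_pos hr _
  have hpt : ∀ t : ℝ, ‖deriv g (circleMap 0 r t)‖ ≤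
      s ^ (1 - p) * ‖deriv g (circleMap 0 r t)‖ ^ p + s⁻¹ * ‖deriv g (circleMap 0 r t)‖ ^ 2 := by
    intro t
    obtain ⟨x, hx⟩ : ∃ x : ℝ, x = ‖deriv g (circleMap 0 r t)‖ := ⟨_, rfl⟩
    have hx0 : 0 ≤ x := hx ▸ norm_nonneg _
    rw [← hx]
    rcases le_total x s with h | h
    · rcases hx0.eq_or_lt with h' | h'
      · rw [← h']
        have : 0 ≤ s ^ (1 - p) * (0 : ℝ) ^ p := by positivity
        have h2 : 0 ≤ s⁻¹ * (0 : ℝ) ^ 2 := by positivity
        linarith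
      · have h3 : x = x ^ (1 - p) * x ^ p := by
          rw [← Real.rpow_add h']; norm_num
        have h4 : x ^ (1 - p) * x ^ p ≤ s ^ (1 - p) * x ^ p := by
          gcongr
        have h2 : 0 ≤ s⁻¹ * x ^ 2 := by positivity
        linarith
    · have h3 : x ≤ s⁻¹ * x ^ 2 := by
        rw [inv_mul_eq_div, le_div_iff₀ hs0]
        nlinarith
      have h4 : 0 ≤ s ^ (1 - p) * x ^ p := by positivity
      linarith
  unfold IM
  have hcp : Continuous fun t : ℝ => ‖deriv g (circleMap 0 r t)‖ ^ p :=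
    hc1.rpow_const fun _ => Or.inr hp.le
  have hi1 : IntervalIntegrable (fun t : ℝ => s ^ (1 - p) * ‖deriv g (circleMap 0 r t)‖ ^ p)
      volume 0 (2 * π) := (continuous_const.mul hcp).intervalIntegrable _ _
  have hi2 : IntervalIntegrable (fun t : ℝ => s⁻¹ * ‖deriv g (circleMap 0 r t)‖ ^ 2)
      volume 0 (2 * π) := (continuous_const.mul (hc1.pow 2)).intervalIntegrable _ _
  have hE1 : s ^ (1 - p) * (1 - r) ^ (-β) = (1 - r) ^ (-((1 - p + β) / (2 - p))) := by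
    rw [hs, ← Real.rpow_mul hr.le, ← Real.rpow_add hr]
    congr 1
    rw [hσ]; field_simp; ring
  have hE2 : s⁻¹ * (1 / (1 - r)) = (1 - r) ^ (-((1 - p + β) / (2 - p))) := by
    rw [hs, ← Real.rpow_neg hr.le, neg_neg, one_div, ← Real.rpow_neg_one, ← Real.rpow_add hr]
    congr 1
    rw [hσ]; field_simp; ring
  calc ∫ t in (0 : ℝ)..(2 * π), ‖deriv g (circleMap 0 r t)‖
      ≤ ∫ t in (0 : ℝ)..(2 * π), (s ^ (1 - p) * ‖deriv g (circleMap 0 r t)‖ ^ p +
          s⁻¹ * ‖deriv g (circleMap 0 r t)‖ ^ 2) :=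
        intervalIntegral.integral_mono_on (by positivity) (hc1.intervalIntegrable _ _)
          (hi1.add hi2) (fun t _ => hpt t)
    _ = s ^ (1 - p) * (∫ t in (0 : ℝ)..(2 * π), ‖deriv g (circleMap 0 r t)‖ ^ p) +
          s⁻¹ * ∫ t in (0 : ℝ)..(2 * π), ‖deriv g (circleMap 0 r t)‖ ^ 2 := by
        rw [intervalIntegral.integral_add hi1 hi2, intervalIntegral.integral_const_mul,
          intervalIntegral.integral_const_mul]
    _ ≤ s ^ (1 - p) * (K * (1 - r) ^ (-β)) + s⁻¹ * (2 * π * (1 / (1 - r))) := by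
        gcongr
        exact hK r h0.le h1
    _ = K * (s ^ (1 - p) * (1 - r) ^ (-β)) + 2 * π * (s⁻¹ * (1 / (1 - r))) := by ring
    _ = (K + 2 * π) * (1 - r) ^ (-((1 - p + β) / (2 - p))) := by rw [hE1, hE2]; ring

/-- Pommerenke's bound -/
theorem Bd_num : Bd (4906 / 10000) := by
  have h := Bd_of (p := 7 / 100) (β := 168 / 10000) (x₀ := 9999 / 10000) (by norm_num) (by norm_num)
    (by norm_num) (by norm_num) (by norm_num) (by norm_num) (by norm_num)
  have e : ((1 - 7 / 100 + 168 / 10000) / (2 - 7 / 100) : ℝ) ≤ 4906 / 10000 := by norm_num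
  exact Bd.mono h e

end Pool.Agent.Helper51.BB
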