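import Pool.Agent.Helper51.LT.St
import Pool.Agent.Helper60.Rel.GFun
import Pool.Agent.Helper71.TU.X5aux

/-!
# `B_b(1) ≤ 0.4906`: the sharp bound for the logarithmic derivative of `g'`
-/

set_option autoImplicit false

namespace Pool.Agent.Helper51.BB

open Complex MeasureTheory Set Metric Filter Topology
open scoped Real ENNReal ComplexConjugate
open Pool.Agent.Helper51.LT

theorem norm_id (z x : ℂ) :
    ‖1 + conj z * x‖ ^ 2 - ‖x + z‖ ^ 2 = (1 - ‖z‖ ^ 2) * (1 - ‖x‖ ^ 2) := by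
  rw [← Complex.normSq_eq_norm_sq, ← Complex.normSq_eq_norm_sq, ← Complex.normSq_eq_norm_sq,
    ← Complex.normSq_eq_norm_sq]
  simp only [Complex.normSq_apply, Complex.add_re, Complex.add_im, Complex.mul_re, Complex.mul_im,
    Complex.conj_re, Complex.conj_im, Complex.one_re, Complex.one_im]
  ring

theorem den_ne {z x : ℂ} (hz : ‖z‖ < 1) (hx : ‖x‖ < 1) : 1 + conj z * x ≠ 0 := by
  intro h
  have h1 : ‖conj z * x‖ = 1 := by
    have : conj z * x = -1 := by linear_combination h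
    rw [this]; simp
  rw [norm_mul, RCLike.norm_conj] at h1
  nlinarith [norm_nonneg z, norm_nonneg x]

theorem T_mem {z x : ℂ} (hz : ‖z‖ < 1) (hx : ‖x‖ < 1) : ‖(x + z) / (1 + conj z * x)‖ < 1 := by
  have hne := den_ne hz hx
  rw [norm_div, div_lt_one (norm_pos_iff.2 hne)]
  have h1 := norm_id z x
  have h2 : 0 < (1 - ‖z‖ ^ 2) * (1 - ‖x‖ ^ 2) := by
    apply mul_pos <;> nlinarith [norm_nonneg z, norm_nonneg x]
  have h3 : ‖x + z‖ ^ 2 < ‖1 + conj z * x‖ ^ 2 := by linarith
  exact lt_of_pow_lt_pow_left₀ 2 (norm_nonneg _) h3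

theorem pre {g : ℂ → ℂ} (hg : Un g (ball 0 1)) {z : ℂ} (hz : z ∈ ball (0 : ℂ) 1) :
    ‖((1 - ‖z‖ ^ 2 : ℝ) : ℂ) * (deriv (deriv g) z / deriv g z) - 2 * conj z‖ ≤ 4 := by
  obtain ⟨hf, hi⟩ := hg
  have hz1 : ‖z‖ < 1 := mem_ball_zero_iff.1 hz
  have hne : deriv g z ≠ 0 := Pool.TU.X5.deriv_ne_zero_of_injOn isOpen_ball hf hi hz
  obtain ⟨s, hs⟩ : ∃ s : ℂ, s = ((1 - ‖z‖ ^ 2 : ℝ) : ℂ) := ⟨_, rfl⟩
  have hs' : s = 1 - z * conj z := by
    rw [hs, Complex.mul_conj, Complex.normSq_eq_norm_sq]; push_cast; ring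
  have hs0 : s ≠ 0 := by
    rw [hs]
    have : 0 < 1 - ‖z‖ ^ 2 := by nlinarith [norm_nonneg z]
    exact_mod_cast this.ne'
  rw [← hs]
  obtain ⟨c, hc⟩ : ∃ c : ℂ, c = (s * deriv g z)⁻¹ := ⟨_, rfl⟩
  have hc0 : c ≠ 0 := by rw [hc]; exact inv_ne_zero (mul_ne_zero hs0 hne)
  obtain ⟨T, hT⟩ : ∃ T : ℂ → ℂ, T = fun x => (x + z) / (1 + conj z * x) := ⟨_, rfl⟩
  have hTm : ∀ x ∈ ball (0 : ℂ) 1, T x ∈ ball (0 : ℂ) 1 := by
    intro x hx
    rw [mem_ball_zero_iff] at hx ⊢
    rw [hT]; exact T_mem hz1 hx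
  have hTd : ∀ x ∈ ball (0 : ℂ) 1, HasDerivAt T (s / (1 + conj z * x) ^ 2) x := by
    intro x hx
    have hx1 := mem_ball_zero_iff.1 hx
    have hd := den_ne hz1 hx1
    have h1 : HasDerivAt (fun x : ℂ => x + z) 1 x := (hasDerivAt_id x).add_const z
    have h2 : HasDerivAt (fun x : ℂ => 1 + conj z * x) (conj z) x := by
      have := ((hasDerivAt_id x).const_mul (conj z)).const_add 1
      simpa using this
    have h3 : HasDerivAt T ((1 * (1 + conj z * x) - (x + z) * conj z) / (1 + conj z * x) ^ 2) x := by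
      rw [hT]
      exact h1.div h2 hd
    have e : (1 * (1 + conj z * x) - (x + z) * conj z) = s := by rw [hs']; ring
    rwa [e] at h3
  have hTi : InjOn T (ball 0 1) := by
    intro x hx y hy hxy
    have hx1 := den_ne hz1 (mem_ball_zero_iff.1 hx)
    have hy1 := den_ne hz1 (mem_ball_zero_iff.1 hy)
    rw [hT] at hxy
    simp only at hxy
    rw [div_eq_div_iff hx1 hy1] at hxy
    have h4 : s * (x - y) = 0 := by rw [hs']; linear_combination hxy
    have h5 := (mul_eq_zero.1 h4).resolve_left hs0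
    exact sub_eq_zero.1 h5
  have hder : ∀ x ∈ ball (0 : ℂ) 1, HasDerivAt (fun x : ℂ => c * (g (T x) - g z))
      (c * (deriv g (T x) * (s / (1 + conj z * x) ^ 2))) x := by
    intro x hx
    have h1 : HasDerivAt g (deriv g (T x)) (T x) :=
      (hf.differentiableAt (isOpen_ball.mem_nhds (hTm x hx))).hasDerivAt
    have h3 : HasDerivAt (fun x : ℂ => g (T x)) (deriv g (T x) * (s / (1 + conj z * x) ^ 2)) x :=
      HasDerivAt.comp x h1 (hTd x hx)
    exact (h3.sub_const (g z)).const_mul c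
  have h0m : (0 : ℂ) ∈ ball (0 : ℂ) 1 := mem_ball_self one_pos
  have hT0 : T 0 = z := by rw [hT]; simp
  have key := Pool.Agent.Helper60.Rel.bieb (fun x : ℂ => c * (g (T x) - g z))
    (fun x hx => (hder x hx).differentiableAt.differentiableWithinAt)
    (by
      intro x hx y hy hxy
      have h1 : g (T x) - g z = g (T y) - g z := mul_left_cancel₀ hc0 hxy
      have h2 := hi (hTm x hx) (hTm y hy) (sub_left_inj.1 h1)
      exact hTi hx hy h2)
    (by simp [hT0])
    (by
      rw [(hder 0 h0m).deriv, hT0, mul_zero, add_zero, hc]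
      field_simp)
  have h2 : deriv (deriv fun x : ℂ => c * (g (T x) - g z)) 0 =
      c * (deriv (deriv g) z * s * s + deriv g z * (s * (-2 * conj z))) := by
    have hev : deriv (fun x : ℂ => c * (g (T x) - g z)) =ᶠ[𝓝 0]
        fun x => c * (deriv g (T x) * (s / (1 + conj z * x) ^ 2)) := by
      filter_upwards [isOpen_ball.mem_nhds h0m] with x hx using (hder x hx).deriv
    rw [hev.deriv_eq]
    have hdf : HasDerivAt (deriv g) (deriv (deriv g) z) z :=
      ((hf.deriv isOpen_ball).differentiableAt (isOpen_ball.mem_nhds hz)).hasDerivAt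
    have e1 : HasDerivAt T s 0 := by
      have := hTd 0 h0m
      simpa using this
    have e2 : HasDerivAt (fun x : ℂ => deriv g (T x)) (deriv (deriv g) z * s) 0 := by
      have hdf' : HasDerivAt (deriv g) (deriv (deriv g) z) (T 0) := by rw [hT0]; exact hdf
      exact HasDerivAt.comp (0 : ℂ) hdf' e1
    have e3 : HasDerivAt (fun x : ℂ => 1 + conj z * x) (conj z) 0 := by
      have := ((hasDerivAt_id (0 : ℂ)).const_mul (conj z)).const_add 1
      simpa using this
    have e4 : HasDerivAt (fun x : ℂ => (1 + conj z * x) ^ 2) (2 * conj z) 0 := by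
      have h : HasDerivAt (fun x : ℂ => (1 + conj z * x) ^ 2)
          ((2 : ℕ) * (1 + conj z * 0) ^ (2 - 1) * conj z) 0 := e3.pow 2
      have e : ((2 : ℕ) * (1 + conj z * 0) ^ (2 - 1) * conj z : ℂ) = 2 * conj z := by simp
      rwa [e] at h
    have e5 : HasDerivAt (fun x : ℂ => s / (1 + conj z * x) ^ 2) (s * (-2 * conj z)) 0 := by
      have h : HasDerivAt (fun x : ℂ => s / (1 + conj z * x) ^ 2)
          ((0 * (1 + conj z * 0) ^ 2 - s * (2 * conj z)) / ((1 + conj z * 0) ^ 2) ^ 2) 0 :=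
        (hasDerivAt_const (0 : ℂ) s).div e4 (by simp)
      have e : (0 * (1 + conj z * 0) ^ 2 - s * (2 * conj z)) / ((1 + conj z * 0) ^ 2) ^ 2
          = s * (-2 * conj z) := by simp
      rwa [e] at h
    have e6 := (e2.mul e5).const_mul c
    have e7 := e6.deriv
    simp only [hT0, mul_zero, add_zero, one_pow, div_one] at e7
    exact e7
  rw [h2] at key
  have h3 : c * (deriv (deriv g) z * s * s + deriv g z * (s * (-2 * conj z)))
      = s * (deriv (deriv g) z / deriv g z) - 2 * conj z := by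
    rw [hc]; field_simp
    ring
  rwa [h3] at key

end Pool.Agent.Helper51.BB
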