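import Pool.Agent.Helper51.BB.Half
import Pool.Agent.Helper51.BB.Pre
import Pool.Agent.Helper60.Rel.Log
import Pool.Agent.Helper51.LT.M_TCD

/-!
# `B_b(1) ≤ 0.4906`: the differential inequality for the means of `|g'|^p`
-/

set_option autoImplicit false

namespace Pool.Agent.Helper51.BB

open Complex MeasureTheory Set Metric Filter Topology
open scoped Real ENNReal ComplexConjugate
open Pool.Agent.Helper60.Rel (LH tc Admissible ClassS LogData om th)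
open Pool.Agent.Helper51.LT

/-- `F = (g'/g'(0))^(p/2)` -/
theorem exists_F {g : ℂ → ℂ} (hg : Un g (ball 0 1)) (p : ℝ) :
    ∃ F : ℂ → ℂ, DifferentiableOn ℂ F (ball 0 1) ∧
      (∀ z ∈ ball (0 : ℂ) 1, ‖F z‖ ^ 2 = (‖deriv g z‖ / ‖deriv g 0‖) ^ p) ∧
      ∀ z ∈ ball (0 : ℂ) 1, deriv F z = (p / 2 : ℝ) * (deriv (deriv g) z / deriv g z) * F z := by
  obtain ⟨hf, hi⟩ := hg
  have h0m : (0 : ℂ) ∈ ball (0 : ℂ) 1 := mem_ball_self one_pos
  have hne : ∀ z ∈ ball (0 : ℂ) 1, deriv g z ≠ 0 := fun z hz =>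
    Pool.TU.X5.deriv_ne_zero_of_injOn isOpen_ball hf hi hz
  have hd' : DifferentiableOn ℂ (deriv g) (ball 0 1) := hf.deriv isOpen_ball
  have hn0 := hne 0 h0m
  obtain ⟨L, hLd, hL0, hL⟩ := Pool.Agent.Helper60.Rel.exists_log_disc
    (ψ := fun z => deriv g z / deriv g 0) (hd'.div_const _)
    (fun z hz => div_ne_zero (hne z hz) hn0) (by simp [hn0])
  have hLder : ∀ z ∈ ball (0 : ℂ) 1, deriv L z = deriv (deriv g) z / deriv g z := by
    intro z hz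
    have h1 : HasDerivAt L (deriv L z) z :=
      (hLd.differentiableAt (isOpen_ball.mem_nhds hz)).hasDerivAt
    have h2 : HasDerivAt (fun z => exp (L z)) (exp (L z) * deriv L z) z := h1.cexp
    have h3 : HasDerivAt (fun z => deriv g z / deriv g 0) (deriv (deriv g) z / deriv g 0) z :=
      ((hd'.differentiableAt (isOpen_ball.mem_nhds hz)).hasDerivAt).div_const _
    have h4 : HasDerivAt (fun z => exp (L z)) (deriv (deriv g) z / deriv g 0) z := by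
      apply h3.congr_of_eventuallyEq
      filter_upwards [isOpen_ball.mem_nhds hz] with w hw using hL w hw
    have h5 := h2.unique h4
    rw [hL z hz] at h5
    have := hne z hz
    field_simp at h5 ⊢
    linear_combination h5
  refine ⟨fun z => exp ((p / 2 : ℝ) * L z), ?_, ?_, ?_⟩
  · exact (hLd.const_mul _).cexp
  · intro z hz
    rw [← norm_div, ← hL z hz, Complex.norm_exp, Complex.norm_exp, ← Real.exp_mul, ← Real.exp_nat_mul]
    congr 1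
    rw [Complex.re_ofReal_mul]
    push_cast
    ring
  · intro z hz
    have h1 : HasDerivAt L (deriv L z) z :=
      (hLd.differentiableAt (isOpen_ball.mem_nhds hz)).hasDerivAt
    have h2 := ((h1.const_mul ((p / 2 : ℝ) : ℂ)).cexp).deriv
    rw [h2, hLder z hz]
    ring

/-- the pointwise inequality -/
theorem pointwise {g F : ℂ → ℂ} (hg : Un g (ball 0 1)) {p : ℝ} (hp : 0 ≤ p)
    (hF : ∀ z ∈ ball (0 : ℂ) 1, deriv F z = (p / 2 : ℝ) * (deriv (deriv g) z / deriv g z) * F z)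
    {z : ℂ} (hz : z ∈ ball (0 : ℂ) 1) :
    (1 - ‖z‖ ^ 2) ^ 2 * ‖z * deriv F z‖ ^ 2 ≤ p ^ 2 * (4 * ‖z‖ ^ 2 - (‖z‖ ^ 2) ^ 2) * ‖F z‖ ^ 2 +
      p * ‖z‖ ^ 2 * (1 - ‖z‖ ^ 2) *
        (‖F z + z * deriv F z‖ ^ 2 - ‖F z‖ ^ 2 - ‖z * deriv F z‖ ^ 2) := by
  have hpre := pre hg hz
  obtain ⟨W, hW⟩ : ∃ W : ℂ, W = deriv (deriv g) z / deriv g z := ⟨_, rfl⟩
  rw [hF z hz]
  rw [← hW] at hpre ⊢
  obtain ⟨x, hx⟩ : ∃ x : ℝ, x = ‖z‖ ^ 2 := ⟨_, rfl⟩
  rw [← hx] at hpre ⊢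
  obtain ⟨w, hw⟩ : ∃ w : ℂ, w = z * W := ⟨_, rfl⟩
  have hzz : z * conj z = (x : ℂ) := by
    rw [Complex.mul_conj, Complex.normSq_eq_norm_sq, hx]
  have h1 : ‖((1 - x : ℝ) : ℂ) * w - 2 * x‖ ^ 2 ≤ 16 * x := by
    have e : ((1 - x : ℝ) : ℂ) * w - 2 * x = z * (((1 - x : ℝ) : ℂ) * W - 2 * conj z) := by
      rw [hw, mul_sub, ← hzz]; ring
    rw [e, norm_mul, mul_pow, ← hx]
    have : ‖((1 - x : ℝ) : ℂ) * W - 2 * conj z‖ ^ 2 ≤ 4 ^ 2 :=
      pow_le_pow_left₀ (norm_nonneg _) hpre 2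
    have hx0 : 0 ≤ x := by rw [hx]; positivity
    nlinarith
  have h2 : ‖((1 - x : ℝ) : ℂ) * w - 2 * x‖ ^ 2
      = (1 - x) ^ 2 * ‖w‖ ^ 2 - 4 * x * (1 - x) * w.re + 4 * x ^ 2 := by
    rw [← Complex.normSq_eq_norm_sq, ← Complex.normSq_eq_norm_sq]
    simp only [Complex.normSq_apply, Complex.sub_re, Complex.sub_im, Complex.mul_re, Complex.mul_im,
      Complex.ofReal_re, Complex.ofReal_im, Complex.re_ofNat, Complex.im_ofNat]
    ring
  rw [h2] at h1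
  have h3 : z * ((p / 2 : ℝ) * W * F z) = ((p / 2 : ℝ) : ℂ) * w * F z := by rw [hw]; ring
  rw [h3]
  have h4 : ‖((p / 2 : ℝ) : ℂ) * w * F z‖ ^ 2 = (p / 2) ^ 2 * ‖w‖ ^ 2 * ‖F z‖ ^ 2 := by
    rw [norm_mul, norm_mul, Complex.norm_real, Real.norm_of_nonneg (by positivity)]
    ring
  have h5 : ‖F z + ((p / 2 : ℝ) : ℂ) * w * F z‖ ^ 2
      = (1 + p * w.re + (p / 2) ^ 2 * ‖w‖ ^ 2) * ‖F z‖ ^ 2 := by
    have e : F z + ((p / 2 : ℝ) : ℂ) * w * F z = (1 + ((p / 2 : ℝ) : ℂ) * w) * F z := by ring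
    rw [e, norm_mul, mul_pow]
    congr 1
    rw [← Complex.normSq_eq_norm_sq, ← Complex.normSq_eq_norm_sq]
    simp only [Complex.normSq_apply, Complex.add_re, Complex.add_im, Complex.mul_re, Complex.mul_im,
      Complex.ofReal_re, Complex.ofReal_im, Complex.one_re, Complex.one_im]
    ring
  rw [h4, h5]
  have hFz : 0 ≤ ‖F z‖ ^ 2 := by positivity
  have key : (p / 2) ^ 2 * ‖F z‖ ^ 2 * ((1 - x) ^ 2 * ‖w‖ ^ 2 - 4 * x * (1 - x) * w.re + 4 * x ^ 2)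
      ≤ (p / 2) ^ 2 * ‖F z‖ ^ 2 * (16 * x) := by gcongr
  nlinarith [key]

theorem hasSum_zder {F : ℂ → ℂ} (hF : DifferentiableOn ℂ F (ball 0 1)) {z : ℂ} (hz : ‖z‖ < 1) :
    HasSum (fun n : ℕ => (n : ℂ) * tc F n * z ^ n) (z * deriv F z) := by
  have h1 := (hasSum_tc (hF.deriv isOpen_ball) hz).mul_left z
  rw [← hasSum_nat_add_iff' 1]
  simp only [Finset.range_one, Finset.sum_singleton, Nat.cast_zero, zero_mul, sub_zero]
  refine h1.congr_fun ?_ |> fun h => h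
  intro n
  rw [(Pool.Agent.Helper51.LT.hTcd).1 F n]
  push_cast
  ring

end Pool.Agent.Helper51.BB
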