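import Pool.Agent.Helper51.BB.Ham

/-!
# `B_b(1) ≤ 0.4906`: the differential inequality, integrated
-/

set_option autoImplicit false

namespace Pool.Agent.Helper51.BB

open Complex MeasureTheory Set Metric Filter Topology
open scoped Real ENNReal ComplexConjugate
open Pool.Agent.Helper60.Rel (LH tc Admissible ClassS LogData om th)
open Pool.Agent.Helper51.LT

theorem summable_zder {F : ℂ → ℂ} (hF : DifferentiableOn ℂ F (ball 0 1)) {t : ℝ} (h0 : 0 ≤ t)
    (h1 : t < 1) : Summable fun n : ℕ => ‖(n : ℂ) * tc F n‖ * t ^ n := by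
  have hz : ‖(t : ℂ)‖ < 1 := by rwa [Complex.norm_real, Real.norm_of_nonneg h0]
  have := (hasSum_zder hF hz).summable.norm
  refine this.congr fun n => ?_
  rw [norm_mul, norm_pow, Complex.norm_real, Real.norm_of_nonneg h0]

theorem par_w {F : ℂ → ℂ} (hF : DifferentiableOn ℂ F (ball 0 1)) {t : ℝ} (h0 : 0 ≤ t)
    (h1 : t < 1) : HasSum (fun n : ℕ => (n : ℝ) ^ 2 * (‖tc F n‖ ^ 2) * t ^ (2 * n))
      (A (fun z => z * deriv F z) t) := by
  have h := Pool.Agent.Helper64.C3.ub_parseval (fun n : ℕ => (n : ℂ) * tc F n) id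
    Function.injective_id t h0 (summable_zder hF h0 h1) (fun z => z * deriv F z)
    (fun z hz => hasSum_zder hF (by rw [mem_sphere_zero_iff_norm.1 hz]; exact h1))
  refine h.congr_fun ?_ |> fun h => h
  intro n
  simp only [id, norm_mul, Complex.norm_natCast]
  ring

theorem par_s {F : ℂ → ℂ} (hF : DifferentiableOn ℂ F (ball 0 1)) {t : ℝ} (h0 : 0 ≤ t)
    (h1 : t < 1) : HasSum (fun n : ℕ => (1 + n : ℝ) ^ 2 * (‖tc F n‖ ^ 2) * t ^ (2 * n))
      (A (fun z => F z + z * deriv F z) t) := by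
  have hsm : Summable fun n : ℕ => ‖(1 + n : ℂ) * tc F n‖ * t ^ n := by
    refine Summable.of_nonneg_of_le (fun n => by positivity) (fun n => ?_)
      ((summable_tc hF h0 h1).add (summable_zder hF h0 h1))
    have : ‖(1 + n : ℂ) * tc F n‖ ≤ ‖tc F n‖ + ‖(n : ℂ) * tc F n‖ := by
      rw [add_mul, one_mul]; exact norm_add_le _ _
    calc _ ≤ (‖tc F n‖ + ‖(n : ℂ) * tc F n‖) * t ^ n := by gcongr
      _ = _ := by ring
  have h := Pool.Agent.Helper64.C3.ub_parseval (fun n : ℕ => (1 + n : ℂ) * tc F n) id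
    Function.injective_id t h0 hsm (fun z => F z + z * deriv F z)
    (fun z hz => by
      have hz1 : ‖z‖ < 1 := by rw [mem_sphere_zero_iff_norm.1 hz]; exact h1
      have := (hasSum_tc hF hz1).add (hasSum_zder hF hz1)
      refine this.congr_fun ?_ |> fun h => h
      intro n
      simp only [id]
      ring)
  refine h.congr_fun ?_ |> fun h => h
  intro n
  have : ‖(1 + n : ℂ)‖ = 1 + n := by
    have : (1 + n : ℂ) = ((1 + n : ℝ) : ℂ) := by push_cast; ring
    rw [this, Complex.norm_real, Real.norm_of_nonneg (by positivity)]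
  simp only [id, norm_mul, this]
  ring

/-- integrated inequality -/
theorem integrated {g F : ℂ → ℂ} (hg : Un g (ball 0 1)) {p : ℝ} (hp : 0 ≤ p)
    (hFd : DifferentiableOn ℂ F (ball 0 1))
    (hF : ∀ z ∈ ball (0 : ℂ) 1, deriv F z = (p / 2 : ℝ) * (deriv (deriv g) z / deriv g z) * F z)
    {r : ℝ} (h0 : 0 ≤ r) (h1 : r < 1) :
    (1 - r ^ 2) ^ 2 * A (fun z => z * deriv F z) r ≤
      p ^ 2 * (4 * r ^ 2 - (r ^ 2) ^ 2) * A F r +
      p * r ^ 2 * (1 - r ^ 2) *
        (A (fun z => F z + z * deriv F z) r - A F r - A (fun z => z * deriv F z) r) := by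
  have hpi := Real.pi_pos
  have hzd : DifferentiableOn ℂ (fun z => z * deriv F z) (ball 0 1) :=
    differentiableOn_id.mul (hFd.deriv isOpen_ball)
  have c1 := cont_circ hFd h0 h1
  have c2 := cont_circ hzd h0 h1
  have c3 := cont_circ (hFd.add hzd) h0 h1
  simp only [Pi.add_apply] at c3
  have hmono : (∫ t in (0 : ℝ)..(2 * π), (1 - r ^ 2) ^ 2 *
      ‖circleMap 0 r t * deriv F (circleMap 0 r t)‖ ^ 2) ≤
      ∫ t in (0 : ℝ)..(2 * π), (p ^ 2 * (4 * r ^ 2 - (r ^ 2) ^ 2) * ‖F (circleMap 0 r t)‖ ^ 2 +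
        p * r ^ 2 * (1 - r ^ 2) * (‖F (circleMap 0 r t) + circleMap 0 r t *
          deriv F (circleMap 0 r t)‖ ^ 2 - ‖F (circleMap 0 r t)‖ ^ 2 -
          ‖circleMap 0 r t * deriv F (circleMap 0 r t)‖ ^ 2)) := by
    apply intervalIntegral.integral_mono_on (by positivity)
      ((by fun_prop : Continuous fun t : ℝ => (1 - r ^ 2) ^ 2 *
      ‖circleMap 0 r t * deriv F (circleMap 0 r t)‖ ^ 2).intervalIntegrable _ _)
      ((by fun_prop : Continuous fun t : ℝ =>
        (p ^ 2 * (4 * r ^ 2 - (r ^ 2) ^ 2) * ‖F (circleMap 0 r t)‖ ^ 2 +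
        p * r ^ 2 * (1 - r ^ 2) * (‖F (circleMap 0 r t) + circleMap 0 r t *
          deriv F (circleMap 0 r t)‖ ^ 2 - ‖F (circleMap 0 r t)‖ ^ 2 -
          ‖circleMap 0 r t * deriv F (circleMap 0 r t)‖ ^ 2))).intervalIntegrable _ _)
    intro t _
    have hn : ‖circleMap 0 r t‖ = r := Pool.Agent.Helper64.C3.ub_norm_circleMap r t h0
    have := pointwise hg hp hF (z := circleMap 0 r t) (by rw [mem_ball_zero_iff, hn]; exact h1)
    rw [hn] at this
    exact this
  rw [intervalIntegral.integral_const_mul, intervalIntegral.integral_add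
    ((by fun_prop : Continuous _).intervalIntegrable _ _)
    ((by fun_prop : Continuous _).intervalIntegrable _ _),
    intervalIntegral.integral_const_mul, intervalIntegral.integral_const_mul,
    intervalIntegral.integral_sub ((by fun_prop : Continuous _).intervalIntegrable _ _)
    ((by fun_prop : Continuous _).intervalIntegrable _ _),
    intervalIntegral.integral_sub ((by fun_prop : Continuous _).intervalIntegrable _ _)
    ((by fun_prop : Continuous _).intervalIntegrable _ _)] at hmono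
  rw [A_eq, A_eq, A_eq]
  have h2 : 0 < (2 * π)⁻¹ := by positivity
  have h3 := mul_le_mul_of_nonneg_left hmono h2.le
  calc _ = _ := by ring
    _ ≤ _ := h3
    _ = _ := by ring

end Pool.Agent.Helper51.BB
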