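import Pool.Agent.Helper51.LT.St
import Pool.Agent.Helper96.C3UB

/-!
# `B_b(1) ≤ 0.4906`: Parseval, the mean square of the derivative
-/

set_option autoImplicit false

namespace Pool.Agent.Helper51.BB

open Complex MeasureTheory Set Metric Filter Topology
open scoped Real ENNReal
open Pool.Agent.Helper60.Rel (LH tc Admissible ClassS LogData om th)
open Pool.Agent.Helper51.LT

theorem hasSum_tc {F : ℂ → ℂ} (hF : DifferentiableOn ℂ F (ball 0 1)) {z : ℂ} (hz : ‖z‖ < 1) :
    HasSum (fun n : ℕ => tc F n * z ^ n) (F z) := by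
  have h := Complex.hasSum_taylorSeries_on_ball (f := F) (c := 0) (r := (1 : NNReal))
    (by simpa using hF) (z := z) (by simpa using hz)
  refine h.congr_fun ?_ |> fun h => h
  intro m
  simp only [smul_eq_mul, sub_zero, tc]
  ring

theorem summable_tc {F : ℂ → ℂ} (hF : DifferentiableOn ℂ F (ball 0 1)) {t : ℝ} (h0 : 0 ≤ t)
    (h1 : t < 1) : Summable fun n : ℕ => ‖tc F n‖ * t ^ n := by
  have hz : ‖(t : ℂ)‖ < 1 := by rwa [Complex.norm_real, Real.norm_of_nonneg h0]
  have := (hasSum_tc hF hz).summable.norm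
  refine this.congr fun n => ?_
  rw [norm_mul, norm_pow, Complex.norm_real, Real.norm_of_nonneg h0]

/-- mean square on the circle of radius `t` -/
noncomputable def A (F : ℂ → ℂ) (t : ℝ) : ℝ := Real.circleAverage (fun z => ‖F z‖ ^ 2) 0 t

theorem parseval {F : ℂ → ℂ} (hF : DifferentiableOn ℂ F (ball 0 1)) {t : ℝ} (h0 : 0 ≤ t)
    (h1 : t < 1) : HasSum (fun n : ℕ => ‖tc F n‖ ^ 2 * t ^ (2 * n)) (A F t) :=
  Pool.Agent.Helper64.C3.ub_parseval (tc F) id Function.injective_id t h0 (summable_tc hF h0 h1) F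
    (fun z hz => hasSum_tc hF (by rw [mem_sphere_zero_iff_norm.1 hz]; exact h1))

/-- the mean square of the derivative of a bounded univalent function -/
theorem L2 {g : ℂ → ℂ} (hg : BU g) {r : ℝ} (h0 : 0 ≤ r) (h1 : r < 1) :
    A (deriv g) r ≤ 1 / (1 - r) := by
  obtain ⟨⟨hd, hi⟩, hb⟩ := hg
  have hd' : DifferentiableOn ℂ (deriv g) (ball 0 1) := hd.deriv isOpen_ball
  have hr : 0 < 1 - r := by linarith
  -- the area theorem
  have harea : ∀ N : ℕ, ∀ s : ℝ, 0 < s → s < 1 →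
      ∑ k ∈ Finset.range N, (‖tc (deriv g) k‖ ^ 2 * s ^ (2 * k + 2) / (k + 1)) ≤ 1 := by
    intro N s hs0 hs1
    have e1 := Pool.Agent.Helper64.C3.ub_area_ge (tc (deriv g)) id Function.injective_id (deriv g)
      s hs0 hs1 hd' (fun t ht0 ht1 => summable_tc hd' ht0 ht1)
      (fun z hz => hasSum_tc hd' (mem_ball_zero_iff.1 hz)) N
    have e2 := Pool.Agent.Helper64.C3.ub_area_le hd hi s 1 hs1 zero_le_one
      (fun z hz => hb z (ball_subset_ball hs1.le hz))
    have e3 := e1.trans e2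
    rw [← Finset.mul_sum, one_pow, mul_one] at e3
    simp only [id] at e3
    have hpi := Real.pi_pos
    nlinarith [e3, hpi]
  have harea1 : ∀ N : ℕ, ∑ k ∈ Finset.range N, (‖tc (deriv g) k‖ ^ 2 / (k + 1)) ≤ 1 := by
    intro N
    have hc : ContinuousWithinAt (fun s : ℝ => ∑ k ∈ Finset.range N,
        (‖tc (deriv g) k‖ ^ 2 * s ^ (2 * k + 2) / (k + 1))) (Iio 1) 1 := by
      apply Continuous.continuousWithinAt
      fun_prop
    have ht := hc.tendsto
    simp only [one_pow, mul_one] at ht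
    haveI : (𝓝[<] (1 : ℝ)).NeBot := inferInstance
    refine le_of_tendsto ht ?_
    filter_upwards [Ioo_mem_nhdsLT (show (0 : ℝ) < 1 by norm_num)] with s hs
    exact harea N s hs.1 hs.2
  have hk : ∀ k : ℕ, ((k : ℝ) + 1) * r ^ (2 * k) ≤ 1 / (1 - r) := by
    intro k
    have e1 : ((k : ℝ) + 1) * r ^ k ≤ ∑ j ∈ Finset.range (k + 1), r ^ j := by
      have : ∑ j ∈ Finset.range (k + 1), r ^ k ≤ ∑ j ∈ Finset.range (k + 1), r ^ j := by
        apply Finset.sum_le_sum
        intro j hj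
        exact pow_le_pow_of_le_one h0 h1.le (by simp at hj; omega)
      simpa using this
    have e2 : ∑ j ∈ Finset.range (k + 1), r ^ j ≤ 1 / (1 - r) := by
      rw [geom_sum_eq h1.ne, ← neg_div_neg_eq, neg_sub, neg_sub]
      have : 0 ≤ r ^ (k + 1) := pow_nonneg h0 _
      gcongr
      linarith
    calc ((k : ℝ) + 1) * r ^ (2 * k) ≤ ((k : ℝ) + 1) * r ^ k := by
          gcongr ?_ * ?_
          exact pow_le_pow_of_le_one h0 h1.le (by omega)
      _ ≤ _ := e1.trans e2
  have hp := (parseval hd' h0 h1).tendsto_sum_nat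
  refine le_of_tendsto' hp fun N => ?_
  calc ∑ k ∈ Finset.range N, ‖tc (deriv g) k‖ ^ 2 * r ^ (2 * k)
      ≤ ∑ k ∈ Finset.range N, (‖tc (deriv g) k‖ ^ 2 / (k + 1)) * (1 / (1 - r)) := by
        apply Finset.sum_le_sum
        intro k _
        have hk1 : (0 : ℝ) < k + 1 := by positivity
        calc ‖tc (deriv g) k‖ ^ 2 * r ^ (2 * k)
            = (‖tc (deriv g) k‖ ^ 2 / (k + 1)) * (((k : ℝ) + 1) * r ^ (2 * k)) := by
              field_simp
          _ ≤ _ := by gcongr; exact hk k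
    _ = (∑ k ∈ Finset.range N, (‖tc (deriv g) k‖ ^ 2 / (k + 1))) * (1 / (1 - r)) := by
        rw [Finset.sum_mul]
    _ ≤ 1 * (1 / (1 - r)) := by gcongr; exact harea1 N
    _ = 1 / (1 - r) := one_mul _

end Pool.Agent.Helper51.BB
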